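import Mathlib

/-!
# Deterministic oracle machines with a stack: definitions
-/

set_option autoImplicit false

namespace Pool.Agent.V8H39.DO

/-- What a machine does in a state: it reads the bit `v` of the input and proceeds in the state
`next b`, `b` being the value of the bit; it writes the bit `c` at the end of the query tape; it
asks the oracle whether the string on the query tape belongs to the oracle set, proceeds in the
state `next b`, `b` being the answer, and the query tape is erased; it puts the symbol `c` on the
stack, and if `save = true` also the contents of the query tape, which is erased then; it takes the
top entry off the stack and proceeds in the state `next c`, `c` being its symbol, and if the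
contents of the query tape were saved in this entry, they are restored (there is no computation if
the stack is empty); or it halts with the output `b`. -/
inductive Act (V Γ S : Type) : Type
  | read (v : V) (next : Bool → S)
  | write (c : Bool) (next : S)
  | ask (next : Bool → S)
  | push (c : Γ) (save : Bool) (next : S)
  | pop (next : Γ → S)
  | halt (b : Bool)

/-- A deterministic oracle machine with a stack, with input bits indexed by `V`. The states are
the configurations of the machine without the stack and the query tape (control state, contents of
the work tapes, positions of the heads), so the logarithm of their number is the work memory. The
height of the stack, the length of the query tape and the number of steps are not limited. -/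
structure DMach (V : Type) where
  /-- the stack symbols -/
  Γ : Type
  /-- the configurations, without the stack and the query tape -/
  State : Type
  /-- there are finitely many of them -/
  [fintype : Fintype State]
  /-- the start -/
  start : State
  /-- what is done in a state -/
  act : State → Act V Γ State

attribute [instance] DMach.fintype

/-- A stack entry is a symbol, possibly with the contents of the query tape. -/
abbrev Entry (Γ : Type) : Type := Γ × Option (List Bool)

/-- the entry put on the stack, if the string on the query tape is `w` -/
def entry {Γ : Type} (c : Γ) (save : Bool) (w : List Bool) : Entry Γ :=
  (c, if save then some w else none)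

namespace DMach

variable {V : Type}

/-- `P.Run O m x q w s L b`: with the oracle set of all strings of length at most `m` in `O`, the
computation on the input `x` which starts in the state `q` with the string `w` on the query tape
and the stack `s` reads the bits of the list `L`, in this order, and halts with the output `b`. -/
inductive Run (P : DMach V) (O : Set (List Bool)) (m : ℕ) (x : V → Bool) :
    P.State → List Bool → List (Entry P.Γ) → List V → Bool → Prop
  | halt {q : P.State} {w : List Bool} {s : List (Entry P.Γ)} {b : Bool}
      (h : P.act q = Act.halt b) : Run P O m x q w s [] b
  | read {q : P.State} {w : List Bool} {s : List (Entry P.Γ)} {v : V} {next : Bool → P.State}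
      {L : List V} {b : Bool} (h : P.act q = Act.read v next)
      (h' : Run P O m x (next (x v)) w s L b) : Run P O m x q w s (v :: L) b
  | write {q : P.State} {w : List Bool} {s : List (Entry P.Γ)} {c : Bool} {next : P.State}
      {L : List V} {b : Bool} (h : P.act q = Act.write c next)
      (h' : Run P O m x next (w ++ [c]) s L b) : Run P O m x q w s L b
  | yes {q : P.State} {w : List Bool} {s : List (Entry P.Γ)} {next : Bool → P.State} {L : List V}
      {b : Bool} (h : P.act q = Act.ask next) (hw : w ∈ O ∧ w.length ≤ m)
      (h' : Run P O m x (next true) [] s L b) : Run P O m x q w s L b
  | no {q : P.State} {w : List Bool} {s : List (Entry P.Γ)} {next : Bool → P.State} {L : List V}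
      {b : Bool} (h : P.act q = Act.ask next) (hw : ¬ (w ∈ O ∧ w.length ≤ m))
      (h' : Run P O m x (next false) [] s L b) : Run P O m x q w s L b
  | push {q : P.State} {w : List Bool} {s : List (Entry P.Γ)} {c : P.Γ} {save : Bool}
      {next : P.State} {L : List V} {b : Bool} (h : P.act q = Act.push c save next)
      (h' : Run P O m x next (if save then [] else w) (entry c save w :: s) L b) :
      Run P O m x q w s L b
  | pop {q : P.State} {w : List Bool} {s : List (Entry P.Γ)} {c : P.Γ} {o : Option (List Bool)}
      {next : P.Γ → P.State} {L : List V} {b : Bool} (h : P.act q = Act.pop next)
      (h' : Run P O m x (next c) (o.getD w) s L b) : Run P O m x q w ((c, o) :: s) L b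

/-- On the input `x` the machine, with the oracle set of the strings of length at most `m` in `O`,
started with empty query tape and empty stack, reads the bits of the list `L`, in this order, and
halts with the output `b`. -/
def Comp (P : DMach V) (O : Set (List Bool)) (m : ℕ) (x : V → Bool) (L : List V) (b : Bool) :
    Prop :=
  P.Run O m x P.start [] [] L b

end DMach

end Pool.Agent.V8H39.DO
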