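import Mathlib
import Pool.Agent.V8H39.DO.Defs
import Pool.Agent.V8H39.SO.Sim
import Pool.Agent.V8H39.ST.Defs

/-!
# A sparse oracle can be built into a machine with a stack
-/

set_option autoImplicit false

open Finset

namespace Pool.Agent.V8H39.DO

open Pool.Agent.V8H39.SO (upTo pre cls wr ans wr_cls ans_yes ans_no card_pre)
open Pool.Agent.V8H39

variable {V : Type}

/-- The machine without oracle. -/
noncomputable def toMach (P : DMach V) (O : Set (List Bool)) (m : ℕ) : ST.Mach V where
  State := P.State × Option (pre O m)
  Sym := P.Γ × Option (Option (pre O m))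
  start := (P.start, cls O m [])
  act s := match P.act s.1 with
    | .read v next => .read v (fun b => (next b, s.2))
    | .write c next => .jump (next, wr O m c s.2)
    | .ask next => .jump (next (ans O m s.2), cls O m [])
    | .push c save next => .push (c, if save then some s.2 else none)
        (next, if save then cls O m [] else s.2)
    | .pop next => .pop (fun e => (next e.1, e.2.getD s.2))
    | .halt b => .halt b

/-- The stack. -/
noncomputable def mp {Γ : Type} (O : Set (List Bool)) (m : ℕ) (s : List (Entry Γ)) :
    List (Γ × Option (Option (pre O m))) :=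
  s.map (fun e => (e.1, e.2.map (cls O m)))

theorem card_toMach (P : DMach V) (O : Set (List Bool)) (m : ℕ) :
    Fintype.card (toMach P O m).State ≤ Fintype.card P.State * ((upTo O m).ncard * m + 2) := by
  have h : Fintype.card (toMach P O m).State = Fintype.card (P.State × Option (pre O m)) := rfl
  rw [h, Fintype.card_prod, Fintype.card_option, Fintype.card_coe]
  exact Nat.mul_le_mul_left _ (Nat.add_le_add_right (card_pre O m) 1)

theorem ans_cls (O : Set (List Bool)) (m : ℕ) (w : List Bool) :
    (w ∈ O ∧ w.length ≤ m → ans O m (cls O m w) = true) ∧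
    (¬ (w ∈ O ∧ w.length ≤ m) → ans O m (cls O m w) = false) := by
  refine ⟨fun h => ans_yes h.1 h.2, fun h => ?_⟩
  by_cases hw : w ∈ O
  · have hl : ¬ w.length ≤ m := fun h' => h ⟨hw, h'⟩
    have h2 : w ∉ pre O m := by
      intro h3
      rw [SO.mem_pre] at h3
      rcases h3 with h3 | ⟨u, -, h4, h5⟩
      · rw [h3] at hl
        simp at hl
      · exact hl (h5.length_le.trans h4)
    rw [SO.cls_none h2]
    rfl
  · exact ans_no hw

theorem sim_run {P : DMach V} {O : Set (List Bool)} {m : ℕ} {x : V → Bool} {q : P.State}
    {w : List Bool} {s : List (Entry P.Γ)} {L : List V} {b : Bool} (h : P.Run O m x q w s L b) :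
    (toMach P O m).Run x (q, cls O m w) (mp O m s) L b := by
  induction h with
  | halt h => exact ST.Mach.Run.halt (by simp [toMach, h])
  | @read q w s v next L b h _ ih =>
    exact ST.Mach.Run.read (nxt := fun b => (next b, cls O m w)) (by simp [toMach, h]) ih
  | @write q w s c next L b h _ ih =>
    refine ST.Mach.Run.jump (q' := (next, cls O m (w ++ [c]))) (by simp [toMach, h, wr_cls]) ih
  | @yes q w s next L b h hw _ ih =>
    refine ST.Mach.Run.jump (q' := (next true, cls O m []))
      (by simp [toMach, h, (ans_cls O m w).1 hw]) ih
  | @no q w s next L b h hw _ ih =>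
    refine ST.Mach.Run.jump (q' := (next false, cls O m []))
      (by simp [toMach, h, (ans_cls O m w).2 hw]) ih
  | @push q w s c save next L b h _ ih =>
    cases save with
    | true =>
      exact ST.Mach.Run.push (a := (c, some (cls O m w))) (q' := (next, cls O m []))
        (by simp [toMach, h]) ih
    | false =>
      exact ST.Mach.Run.push (a := (c, none)) (q' := (next, cls O m w))
        (by simp [toMach, h]) ih
  | @pop q w s c o next L b h _ ih =>
    have h1 : (next c, cls O m (o.getD w)) = (next c, (o.map (cls O m)).getD (cls O m w)) := by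
      cases o <;> rfl
    rw [h1] at ih
    have h2 : (toMach P O m).act (q, cls O m w) =
        ST.Act.pop (fun e : P.Γ × Option (Option (pre O m)) =>
          (next e.1, e.2.getD (cls O m w))) := by simp only [toMach, h]
    exact ST.Mach.Run.pop (a := (c, o.map (cls O m))) h2 ih

theorem run_sim {P : DMach V} {O : Set (List Bool)} {m : ℕ} {x : V → Bool}
    {t : (toMach P O m).State} {σ : List (toMach P O m).Sym} {L : List V} {b : Bool}
    (h : (toMach P O m).Run x t σ L b) : ∀ (q : P.State) (w : List Bool) (s : List (Entry P.Γ)),
      t = (q, cls O m w) → σ = mp O m s → P.Run O m x q w s L b := by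
  induction h with
  | @halt t σ b h =>
    rintro q w s rfl rfl
    cases ha : P.act q with
    | halt b' =>
      simp only [toMach, ha, ST.Act.halt.injEq] at h
      rw [← h]
      exact DMach.Run.halt ha
    | _ => simp [toMach, ha] at h
  | @read t σ v nxt L b h _ ih =>
    rintro q w s rfl rfl
    cases ha : P.act q with
    | read v' next =>
      simp only [toMach, ha, ST.Act.read.injEq] at h
      obtain ⟨rfl, rfl⟩ := h
      exact DMach.Run.read ha (ih _ _ _ rfl rfl)
    | _ => simp [toMach, ha] at h
  | @jump t σ t' L b h _ ih =>
    rintro q w s rfl rfl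
    cases ha : P.act q with
    | write c next =>
      simp only [toMach, ha] at h
      have h2 := ST.Act.jump.inj h
      subst h2
      exact DMach.Run.write ha (ih _ _ _ (by rw [wr_cls]) rfl)
    | ask next =>
      simp only [toMach, ha] at h
      have h2 := ST.Act.jump.inj h
      subst h2
      by_cases hw : w ∈ O ∧ w.length ≤ m
      · exact DMach.Run.yes ha hw (ih _ _ _ (by rw [(ans_cls O m w).1 hw]) rfl)
      · exact DMach.Run.no ha hw (ih _ _ _ (by rw [(ans_cls O m w).2 hw]) rfl)
    | _ => simp [toMach, ha] at h
  | @push t σ a t' L b h _ ih =>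
    rintro q w s rfl rfl
    cases ha : P.act q with
    | push c save next =>
      simp only [toMach, ha, ST.Act.push.injEq] at h
      obtain ⟨rfl, rfl⟩ := h
      refine DMach.Run.push ha (ih _ _ _ ?_ ?_)
      · cases save <;> rfl
      · cases save <;> rfl
    | _ => simp [toMach, ha] at h
  | @pop t a σ nxt L b h _ ih =>
    rintro q w s rfl hs
    cases ha : P.act q with
    | pop next =>
      simp only [toMach, ha] at h
      have h2 := ST.Act.pop.inj h
      subst h2
      cases s with
      | nil => simp [mp] at hs
      | cons e s =>
        obtain ⟨c, o⟩ := e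
        simp only [mp, List.map_cons, List.cons.injEq] at hs
        obtain ⟨rfl, rfl⟩ := hs
        refine DMach.Run.pop ha (ih _ _ _ ?_ rfl)
        cases o <;> rfl
    | _ => simp [toMach, ha] at h

/-- The simulation. -/
theorem comp_iff (P : DMach V) (O : Set (List Bool)) (m : ℕ) (x : V → Bool) (L : List V)
    (b : Bool) : (toMach P O m).Comp x L b ↔ P.Comp O m x L b :=
  ⟨fun h => run_sim h _ _ _ rfl rfl, fun h => sim_run h⟩

end Pool.Agent.V8H39.DO
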